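import Pool.Agent.Q198.Moat.Final

/-!
# Metrics without smooth isometric embedding into `ℝ³` are `C⁰` dense on every surface
-/

set_option autoImplicit false

open Bundle Manifold
open scoped Manifold ContDiff

namespace Pool.Agent.Results.MP_665542_gt.NoIsometricEmbedding

open Q198.Moat

/-- **Theorem.** Let `M` be a smooth surface without boundary (for example the torus
`T² = Circle × Circle`) and `g₀` any smooth Riemannian metric on `M` (for example one that is
realised by a smooth embedding into `ℝ³`). For every `ε > 0` there is a smooth Riemannian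
metric `g` on `M` with `‖g - g₀‖_{C⁰} < ε` such that there is no map `f : M → ℝ³` of class `C⁴`
with `f^* g_eucl = g`; in particular `(M, g)` has no smooth isometric embedding (or immersion)
into `ℝ³`. -/
theorem result {E : Type*} [NormedAddCommGroup E] [NormedSpace ℝ E]
    (hE : Module.finrank ℝ E = 2) {H : Type*} [TopologicalSpace H]
    {I : ModelWithCorners ℝ E H} [I.Boundaryless] {M : Type*} [TopologicalSpace M]
    [ChartedSpace H M] [IsManifold I ∞ M] [T2Space M] [Nonempty M]
    (g₀ : Metric I M) (ε : ℝ) (hε : 0 < ε) :
    ∃ g : Metric I M, CloseC0 g g₀ ε ∧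
      ¬ ∃ f : M → R3, ContMDiff I 𝓘(ℝ, R3) 4 f ∧ IsIsometric g f :=
  surface_main hE g₀ ε hε

end Pool.Agent.Results.MP_665542_gt.NoIsometricEmbedding
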